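import Pool.Agent.TH783.CE.Flat
import Pool.Agent.H391R2.HitSq

/-!
# Constants are flat in a rational function field
-/

set_option autoImplicit false

namespace Pool.Agent.TH783.QT

open Polynomial Pool.Agent.TH783.CE Pool.Agent.H391R2

/-- expansions in base `t^n` are unique -/
theorem base_expansion {k : Type} [Field k] (H : k[X][X]) (n : ℕ)
    (hn : ∀ j, (H.coeff j).natDegree < n) (h0 : H.eval (X ^ n) = 0) : H = 0 := by
  ext j₀ i
  rw [coeff_zero, coeff_zero]
  by_cases hi : n ≤ i
  · exact coeff_eq_zero_of_natDegree_lt ((hn j₀).trans_le hi)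
  push Not at hi
  have h1 := congrArg (fun q : k[X] => q.coeff (n * j₀ + i)) h0
  simp only [coeff_zero] at h1
  rw [eval_eq_sum, Polynomial.sum, finsetSum_coeff] at h1
  have h2 : ∀ j ∈ H.support, (H.coeff j * (X ^ n) ^ j).coeff (n * j₀ + i) =
      if j = j₀ then (H.coeff j₀).coeff i else 0 := by
    intro j _
    rw [← pow_mul, coeff_mul_X_pow']
    rcases lt_trichotomy j j₀ with hj | hj | hj
    · have e1 : n * j + n ≤ n * j₀ := by nlinarith
      rw [if_pos (by omega), if_neg (by omega)]
      exact coeff_eq_zero_of_natDegree_lt ((hn j).trans_le (by omega))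
    · subst hj
      rw [if_pos (by omega), if_pos rfl]
      congr 1
      omega
    · have e1 : n * j₀ + n ≤ n * j := by nlinarith
      rw [if_neg (by omega), if_neg (by omega)]
  rw [Finset.sum_congr rfl h2, Finset.sum_ite_eq'] at h1
  by_cases hj : j₀ ∈ H.support
  · rwa [if_pos hj] at h1
  · rw [notMem_support_iff.1 hj, coeff_zero]

/-- the constants of the rational function field -/
def consts (k : Type) [Field k] : Set (RatFunc k) := Set.range (algebraMap k (RatFunc k))

/-- **The constants form a flat subset of `k(t)`.** -/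
theorem flat_consts (k : Type) [Field k] [CharZero (RatFunc k)] : Flat (consts k) := by
  classical
  intro p₀ p₁ h0 h
  have hinj : Function.Injective (algebraMap k[X] (RatFunc k)) :=
    IsFractionRing.injective k[X] (RatFunc k)
  obtain ⟨c₀, R₀, hc0, hR0⟩ := exists_clear (R := k[X]) p₀
  obtain ⟨c₁, R₁, hc1, hR1⟩ := exists_clear (R := k[X]) p₁
  obtain ⟨d, P₀, P₁, hd, hP0, hP1⟩ : ∃ (d : k[X]) (P₀ P₁ : k[X][X]), d ≠ 0 ∧
      P₀.map (algebraMap k[X] (RatFunc k)) = C (algebraMap k[X] (RatFunc k) d) * p₀ ∧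
      P₁.map (algebraMap k[X] (RatFunc k)) = C (algebraMap k[X] (RatFunc k) d) * p₁ := by
    refine ⟨c₀ * c₁, C c₁ * R₀, C c₀ * R₁, mul_ne_zero hc0 hc1, ?_, ?_⟩
    · rw [Polynomial.map_mul, hR0, map_C, map_mul, C_mul]
      ring
    · rw [Polynomial.map_mul, hR1, map_C, map_mul, C_mul]
      ring
  have hdK : algebraMap k[X] (RatFunc k) d ≠ 0 := by
    rw [Ne, map_eq_zero_iff _ hinj]
    exact hd
  set n : ℕ := (P₀.support.sup fun j => (P₀.coeff j).natDegree) +
    (P₁.support.sup fun j => (P₁.coeff j).natDegree) + 1 with hn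
  have hn0 : ∀ j, (P₀.coeff j).natDegree < n := by
    intro j
    by_cases hj : j ∈ P₀.support
    · have := Finset.le_sup (f := fun j => (P₀.coeff j).natDegree) hj
      omega
    · rw [notMem_support_iff.1 hj, natDegree_zero]
      omega
  have hn1 : ∀ j, (P₁.coeff j).natDegree < n := by
    intro j
    by_cases hj : j ∈ P₁.support
    · have := Finset.le_sup (f := fun j => (P₁.coeff j).natDegree) hj
      omega
    · rw [notMem_support_iff.1 hj, natDegree_zero]
      omega
  have hP00 : P₀ ≠ 0 := by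
    rintro rfl
    rw [Polynomial.map_zero] at hP0
    exact (mul_ne_zero (C_ne_zero.2 hdK) h0) hP0.symm
  -- values
  have hval : ∀ (P : k[X][X]) (p : (RatFunc k)[X]),
      P.map (algebraMap k[X] (RatFunc k)) = C (algebraMap k[X] (RatFunc k) d) * p →
      algebraMap k[X] (RatFunc k) (P.eval (X ^ n)) =
        algebraMap k[X] (RatFunc k) d * p.eval (algebraMap k[X] (RatFunc k) (X ^ n)) := by
    intro P p hP
    rw [← eval_map_apply, hP, eval_mul, eval_C]
  have e0 := hval P₀ p₀ hP0
  have e1 := hval P₁ p₁ hP1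
  have hs : p₀.eval (algebraMap k[X] (RatFunc k) (X ^ n)) ≠ 0 := by
    intro h1
    rw [h1, mul_zero, map_eq_zero_iff _ hinj] at e0
    exact hP00 (base_expansion P₀ n hn0 e0)
  obtain ⟨c, hc⟩ := h _ hs
  have hc' : p₁.eval (algebraMap k[X] (RatFunc k) (X ^ n)) =
      algebraMap k[X] (RatFunc k) (C c) * p₀.eval (algebraMap k[X] (RatFunc k) (X ^ n)) := by
    rw [eq_div_iff hs] at hc
    rw [← hc]
    congr 1
  have hH : (P₁ - C (C c) * P₀).eval (X ^ n) = 0 := by
    apply hinj
    rw [eval_sub, eval_mul, eval_C, map_sub, map_mul, map_zero, e0, e1, hc']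
    ring
  have hH0 : P₁ - C (C c) * P₀ = 0 := by
    refine base_expansion _ n (fun j => ?_) hH
    rw [coeff_sub, coeff_C_mul]
    refine (natDegree_sub_le _ _).trans_lt (max_lt (hn1 j) ?_)
    exact (natDegree_C_mul_le _ _).trans_lt (hn0 j)
  refine ⟨algebraMap k[X] (RatFunc k) (C c), ?_⟩
  have h3 : P₁ = C (C c) * P₀ := sub_eq_zero.1 hH0
  have h4 : C (algebraMap k[X] (RatFunc k) d) * p₁ =
      C (algebraMap k[X] (RatFunc k) d) * (C (algebraMap k[X] (RatFunc k) (C c)) * p₀) := by
    rw [← hP1, h3, Polynomial.map_mul, hP0, map_C]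
    ring
  exact mul_left_cancel₀ (C_ne_zero.2 hdK) h4

end Pool.Agent.TH783.QT
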