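import Pool.Agent.H391R2.HitMulti

/-!
# Hilbert irreducibility with an integer parameter for the fraction field
-/

set_option autoImplicit false

namespace Pool.Agent.TH783.QT

open Polynomial Pool.Agent.H391R2

/-- from an integrally closed domain to its fraction field -/
theorem hp_frac (A K : Type) [CommRing A] [IsDomain A] [IsIntegrallyClosed A] [Field K]
    [Algebra A K] [IsFractionRing A K] (hA : HP A) : HP K := by
  intro f hf hroot B
  classical
  have hinj : Function.Injective (algebraMap A K) := IsFractionRing.injective A K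
  set φ : A[X] →+* K[X] := mapRingHom (algebraMap A K) with hφ
  have hclear : ∀ i, ∃ c : A, c ≠ 0 ∧ C (algebraMap A K c) * f.coeff i ∈ φ.range := by
    intro i
    obtain ⟨c, P, hc, hP⟩ := exists_clear (R := A) (f.coeff i)
    refine ⟨c, hc, P, ?_⟩
    rw [hφ, coe_mapRingHom]
    simpa using hP
  choose c hc0 hc using hclear
  set δ : A := ∏ i ∈ Finset.range (f.natDegree), c i with hδ
  have hδ0 : δ ≠ 0 := Finset.prod_ne_zero_iff.2 fun i _ => hc0 i
  have hδQ : algebraMap A K δ ≠ 0 := by
    rw [Ne, map_eq_zero_iff _ hinj]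
    exact hδ0
  have hCint : ∀ m : A, C (algebraMap A K m) ∈ φ.range := fun m => ⟨C m, by simp [hφ]⟩
  have hlift : scaleRoots f (C (algebraMap A K δ)) ∈ lifts φ := by
    rw [lifts_iff_coeff_lifts]
    intro i
    rw [coeff_scaleRoots]
    change _ ∈ φ.range
    rcases lt_trichotomy i f.natDegree with hi | hi | hi
    · have h1 : f.coeff i * C (algebraMap A K δ) ^ (f.natDegree - i) =
        (C (algebraMap A K (∏ k ∈ (Finset.range f.natDegree).erase i, c k))) *
          (C (algebraMap A K (c i)) * f.coeff i) *
          C (algebraMap A K δ) ^ (f.natDegree - i - 1) := by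
        have h2 : algebraMap A K δ = algebraMap A K
            (∏ k ∈ (Finset.range f.natDegree).erase i, c k) * algebraMap A K (c i) := by
          rw [← map_mul, hδ, ← Finset.prod_erase_mul _ _ (Finset.mem_range.2 hi)]
        have h3 : C (algebraMap A K δ) ^ (f.natDegree - i) =
            C (algebraMap A K δ) * C (algebraMap A K δ) ^ (f.natDegree - i - 1) := by
          rw [← pow_succ']; congr 1; omega
        have h4 : C (algebraMap A K δ) = C (algebraMap A K
            (∏ k ∈ (Finset.range f.natDegree).erase i, c k)) * C (algebraMap A K (c i)) := by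
          rw [← C_mul, ← h2]
        rw [h3]
        nth_rewrite 1 [h4]
        ring
      rw [h1]
      exact φ.range.mul_mem (φ.range.mul_mem (hCint _) (hc i)) (φ.range.pow_mem (hCint δ) _)
    · rw [hi, hf.coeff_natDegree, Nat.sub_self, pow_zero, mul_one]
      exact φ.range.one_mem
    · rw [coeff_eq_zero_of_natDegree_lt hi, zero_mul]
      exact φ.range.zero_mem
  obtain ⟨F, hF, -, hFm⟩ := lifts_and_natDegree_eq_and_monic hlift
    ((monic_scaleRoots_iff _).2 hf)
  have hFroot : ∀ g : A[X], F.eval g ≠ 0 := by
    intro g hg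
    apply hroot (C (algebraMap A K δ)⁻¹ * φ g)
    have h1 : (scaleRoots f (C (algebraMap A K δ))).eval (φ g) = 0 := by
      rw [← hF, eval_map_apply, hg, map_zero]
    have h2 : φ g = C (algebraMap A K δ) * (C (algebraMap A K δ)⁻¹ * φ g) := by
      rw [← mul_assoc, ← C_mul, mul_inv_cancel₀ hδQ, C_1, one_mul]
    rw [h2, scaleRoots_eval_mul] at h1
    have h3 : (C (algebraMap A K δ)) ^ f.natDegree ≠ 0 := pow_ne_zero _ (C_ne_zero.2 hδQ)
    exact (mul_eq_zero.1 h1).resolve_left h3
  obtain ⟨t, ht, hroot'⟩ := hA F hFm hFroot B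
  refine ⟨t, ht, fun x hx => ?_⟩
  have h1 : ((F.map (evalRingHom (t : A))).map (algebraMap A K)).eval
      (algebraMap A K δ * x) = 0 := by
    have h2 : (F.map (evalRingHom (t : A))).map (algebraMap A K) =
        (scaleRoots f (C (algebraMap A K δ))).map (evalRingHom (t : K)) := by
      rw [← hF, Polynomial.map_map, Polynomial.map_map]
      congr 1
      ext q
      · simp [hφ]
      · simp [hφ]
    rw [h2, eval_map]
    have h3 := scaleRoots_eval₂_mul (p := f) (evalRingHom (t : K)) x (C (algebraMap A K δ))
    rw [coe_evalRingHom, eval_C] at h3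
    rw [h3, eval₂_evalRingHom, hx, mul_zero]
  have h4 : IsIntegral A (algebraMap A K δ * x) := by
    refine ⟨F.map (evalRingHom (t : A)), hFm.map _, ?_⟩
    rw [← eval_map]
    exact h1
  obtain ⟨y, hy⟩ := IsIntegrallyClosed.isIntegral_iff.1 h4
  apply hroot' y
  rw [← hy, eval_map_apply, map_eq_zero_iff _ hinj] at h1
  rw [← map_evalRingHom_eval]
  exact h1

/-- Hilbert irreducibility over `ℚ(t)` with a rational integer as parameter -/
theorem hp_ratFunc : HP (RatFunc ℚ) := hp_frac ℚ[X] (RatFunc ℚ) (hp_poly hp_rat)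

end Pool.Agent.TH783.QT
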